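import Pool.Agent.Helper14.TR.Defs

/-!
Project TR (MP_b8862a_ag, block TR-4a): the complex span `EC` of the endomorphisms of the Hodge structure: a
commutative algebra, stable under the automorphisms of the complex numbers, that commutes with `LH` and `MT`; it is
the commutant of `LH` and of the conjugates of `∑ (p - m) P p`.
-/

set_option linter.unusedSectionVars false

open Matrix

namespace MH

section slots54

variable {R n : Type*} [CommRing R] [Fintype n] [DecidableEq n]

/-- the tensor of type (1, 1) of a matrix -/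
private def tt54 (A : Matrix n n R) : (Fin 1 ⊕ Fin 1 → n) → R := fun i => A (i (Sum.inl 0)) (i (Sum.inr 0))

/-- pairs as functions -/
private def pr54 : n × n ≃ (Fin 1 ⊕ Fin 1 → n) where
  toFun p := Sum.elim (fun _ => p.1) (fun _ => p.2)
  invFun j := (j (Sum.inl 0), j (Sum.inr 0))
  left_inv p := rfl
  right_inv j := by
    funext k
    rcases k with k | k
    · rw [Subsingleton.elim k 0]
      rfl
    · rw [Subsingleton.elim k 0]
      rfl

private theorem actF_tt54 (g h : Matrix n n R) (A : Matrix n n R) :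
    actF (Sum.elim (fun _ : Fin 1 => g) (fun _ : Fin 1 => h)) (tt54 A) = tt54 (g * A * hᵀ) := by
  funext i
  unfold actF
  rw [← (pr54 (n := n)).sum_comp, Fintype.sum_prod_type]
  have e1 : ∀ x y : n, (∏ k, (Sum.elim (fun _ : Fin 1 => g) (fun _ : Fin 1 => h) : Fin 1 ⊕ Fin 1 → Matrix n n R) k
      (i k) (pr54 (x, y) k)) * tt54 A (pr54 (x, y)) = g (i (Sum.inl 0)) x * A x y * h (i (Sum.inr 0)) y := by
    intro x y
    rw [Fintype.prod_sum_type]
    simp only [Finset.univ_unique, Finset.prod_singleton, Sum.elim_inl, Sum.elim_inr, Fin.default_eq_zero]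
    have h1 : (pr54 (x, y)) (Sum.inl 0) = x := rfl
    have h2 : (pr54 (x, y)) (Sum.inr 0) = y := rfl
    have h3 : tt54 A (pr54 (x, y)) = A x y := rfl
    rw [h1, h2, h3]
    ring
  simp only [e1]
  unfold tt54
  rw [Matrix.mul_apply, Finset.sum_comm]
  refine Finset.sum_congr rfl fun y _ => ?_
  rw [Matrix.mul_apply, Finset.sum_mul]
  rfl

private theorem tt54_inj {A B : Matrix n n R} (h : tt54 A = tt54 B) : A = B := by
  ext x y
  exact congrFun h (pr54 (x, y))

private theorem dL_tt54 (A X : Matrix n n R) : dL 1 1 (tt54 A) X = tt54 (X * A - A * X) := by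
  rw [dL_apply]
  unfold dact
  rw [Fintype.sum_sum_type]
  simp only [Finset.univ_unique, Finset.sum_singleton, Fin.default_eq_zero]
  have e1 : Function.update (fun _ => (1 : Matrix n n R)) (Sum.inl 0 : Fin 1 ⊕ Fin 1) (lslot 1 1 X (Sum.inl 0)) =
      Sum.elim (fun _ : Fin 1 => X) (fun _ : Fin 1 => 1) := by
    funext k
    rcases k with k | k
    · rw [Subsingleton.elim k 0, Function.update_self]
      rfl
    · rw [Function.update_of_ne (by simp)]
      rfl
  have e2 : Function.update (fun _ => (1 : Matrix n n R)) (Sum.inr 0 : Fin 1 ⊕ Fin 1) (lslot 1 1 X (Sum.inr 0)) =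
      Sum.elim (fun _ : Fin 1 => 1) (fun _ : Fin 1 => -Xᵀ) := by
    funext k
    rcases k with k | k
    · rw [Function.update_of_ne (by simp)]
      rfl
    · rw [Subsingleton.elim k 0, Function.update_self]
      rfl
  rw [e1, e2, actF_tt54, actF_tt54, Matrix.transpose_one, mul_one, one_mul, Matrix.transpose_neg,
    Matrix.transpose_transpose, mul_neg]
  funext i
  simp only [tt54, Pi.add_apply, Matrix.sub_apply, Matrix.neg_apply, sub_eq_add_neg]

end slots54

variable {n : Type*} [Fintype n] [DecidableEq n]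
variable {m : ℤ} {Q : Matrix n n ℚ} {S : Finset ℤ} {P : ℤ → Matrix n n ℂ}

private theorem tC_tt54 (A : Matrix n n ℚ) : tC (tt54 A) = tt54 (toC A) := rfl

private theorem toC_one54 : toC (1 : Matrix n n ℚ) = 1 := by
  unfold toC
  exact Matrix.map_one _ (map_zero _) (map_one _)

private theorem toC_mem54 {A : Matrix n n ℚ} (hA : ∀ p, toC A * P p = P p * toC A) : toC A ∈ EC P :=
  Submodule.subset_span ⟨A, hA, rfl⟩

theorem EC_one : (1 : Matrix n n ℂ) ∈ EC P := by
  rw [← toC_one54]
  refine toC_mem54 fun p => ?_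
  rw [toC_one54, one_mul, mul_one]

theorem EC_mul {x y : Matrix n n ℂ} (hx : x ∈ EC P) (hy : y ∈ EC P) : x * y ∈ EC P := by
  unfold EC at hx
  induction hx using Submodule.span_induction with
  | mem x hx =>
    obtain ⟨A, hA, rfl⟩ := hx
    unfold EC at hy
    induction hy using Submodule.span_induction with
    | mem y hy =>
      obtain ⟨B, hB, rfl⟩ := hy
      rw [← toC_mul]
      refine toC_mem54 fun p => ?_
      rw [toC_mul, mul_assoc, hB, ← mul_assoc, hA, mul_assoc]
    | zero => rw [mul_zero]; exact (EC P).zero_mem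
    | add y z _ _ h1 h2 => rw [mul_add]; exact (EC P).add_mem h1 h2
    | smul c y _ h1 => rw [mul_smul_comm]; exact (EC P).smul_mem c h1
  | zero => rw [zero_mul]; exact (EC P).zero_mem
  | add x z _ _ h1 h2 => rw [add_mul]; exact (EC P).add_mem h1 h2
  | smul c x _ h1 => rw [smul_mul_assoc]; exact (EC P).smul_mem c h1

theorem EC_P {x : Matrix n n ℂ} (hx : x ∈ EC P) (p : ℤ) : x * P p = P p * x := by
  unfold EC at hx
  induction hx using Submodule.span_induction with
  | mem x hx =>
    obtain ⟨A, hA, rfl⟩ := hx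
    exact hA p
  | zero => rw [zero_mul, mul_zero]
  | add x z _ _ h1 h2 => rw [add_mul, mul_add, h1, h2]
  | smul c x _ h1 => rw [smul_mul_assoc, mul_smul_comm, h1]

theorem EC_adj (hSA : SelfAdj Q P) {x : Matrix n n ℂ} (hx : x ∈ EC P) : xᵀ * toC Q = toC Q * x := by
  unfold EC at hx
  induction hx using Submodule.span_induction with
  | mem x hx =>
    obtain ⟨A, hA, rfl⟩ := hx
    rw [← toC_transpose, ← toC_mul, ← toC_mul, hSA A hA]
  | zero => rw [Matrix.transpose_zero, zero_mul, mul_zero]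
  | add x z _ _ h1 h2 => rw [Matrix.transpose_add, add_mul, mul_add, h1, h2]
  | smul c x _ h1 => rw [Matrix.transpose_smul, smul_mul_assoc, mul_smul_comm, h1]

/-- commutative: `(AB)ᵀ Q = Q A B` and `(AB)ᵀ Q = Bᵀ Aᵀ Q = Q B A` -/
theorem EC_comm (H : IsHS m Q S P) (hSA : SelfAdj Q P) {x y : Matrix n n ℂ} (hx : x ∈ EC P) (hy : y ∈ EC P) :
    x * y = y * x := by
  obtain ⟨B, Bi, Qi, _, _, _, h4, _⟩ := H.exists_basis
  have h1 := EC_adj hSA (EC_mul hx hy)
  have h2 : (x * y)ᵀ * toC Q = toC Q * (y * x) := by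
    rw [Matrix.transpose_mul, mul_assoc, EC_adj hSA hx, ← mul_assoc, EC_adj hSA hy, mul_assoc]
  rw [h2] at h1
  calc x * y = Qi * (toC Q * (x * y)) := by rw [← mul_assoc, h4, one_mul]
    _ = Qi * (toC Q * (y * x)) := by rw [h1]
    _ = y * x := by rw [← mul_assoc, h4, one_mul]

theorem EC_aut (σ : ℂ ≃+* ℂ) {x : Matrix n n ℂ} (hx : x ∈ EC P) : x.map σ ∈ EC P := by
  unfold EC at hx
  induction hx using Submodule.span_induction with
  | mem x hx =>
    obtain ⟨A, hA, rfl⟩ := hx
    rw [toC_aut]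
    exact toC_mem54 hA
  | zero => rw [Matrix.map_zero _ (map_zero _)]; exact (EC P).zero_mem
  | add x z _ _ h1 h2 => rw [Matrix.map_add _ (map_add _)]; exact (EC P).add_mem h1 h2
  | smul c x _ h1 =>
    have e : (c • x).map σ = σ c • x.map σ := by
      ext i j
      simp
    rw [e]
    exact (EC P).smul_mem _ h1

theorem EC_conj {x : Matrix n n ℂ} (hx : x ∈ EC P) : x.map (starRingEnd ℂ) ∈ EC P := by
  unfold EC at hx
  induction hx using Submodule.span_induction with
  | mem x hx =>
    obtain ⟨A, hA, rfl⟩ := hx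
    rw [toC_conj]
    exact toC_mem54 hA
  | zero => rw [Matrix.map_zero _ (map_zero _)]; exact (EC P).zero_mem
  | add x z _ _ h1 h2 => rw [Matrix.map_add _ (map_add _)]; exact (EC P).add_mem h1 h2
  | smul c x _ h1 =>
    have e : (c • x).map (starRingEnd ℂ) = starRingEnd ℂ c • x.map (starRingEnd ℂ) := by
      ext i j
      simp
    rw [e]
    exact (EC P).smul_mem _ h1

/-- the tensor of an endomorphism is a Hodge tensor -/
private theorem hodge_tt54 (H : IsHS m Q S P) {A : Matrix n n ℚ} (hA : ∀ p, toC A * P p = P p * toC A) :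
    IsHodgeTensor S P 1 1 (tt54 A) := by
  intro z hz
  rw [tC_tt54]
  have e1 : slot 1 1 (cochar S P z) (cochar S P z⁻¹) =
      Sum.elim (fun _ : Fin 1 => cochar S P z) (fun _ : Fin 1 => (cochar S P z⁻¹)ᵀ) := rfl
  rw [e1, actF_tt54, Matrix.transpose_transpose]
  have e2 : cochar S P z * toC A = toC A * cochar S P z := by
    unfold cochar
    rw [Finset.sum_mul, Finset.mul_sum]
    refine Finset.sum_congr rfl fun p _ => ?_
    rw [smul_mul_assoc, mul_smul_comm, hA]
  have e3 : cochar S P z * cochar S P z⁻¹ = 1 := by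
    refine H.ext_right fun q _ => ?_
    unfold cochar
    rw [mul_assoc, H.sum_mul_P (fun p => z⁻¹ ^ p), mul_smul_comm, H.sum_mul_P (fun p => z ^ p), smul_smul,
      ← mul_zpow, inv_mul_cancel₀ hz, _root_.one_zpow, one_smul, one_mul]
  rw [e2, mul_assoc, e3, mul_one]

/-- an endomorphism of the Hodge structure is a Hodge tensor of type (1,1) -/
theorem LH_EC (H : IsHS m Q S P) {X x : Matrix n n ℂ} (hX : X ∈ LH Q S P) (hx : x ∈ EC P) : X * x = x * X := by
  unfold EC at hx
  induction hx using Submodule.span_induction with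
  | mem x hx =>
    obtain ⟨A, hA, rfl⟩ := hx
    have h1 := hX.2 1 1 (tt54 A) (hodge_tt54 H hA)
    rw [tC_tt54, dL_tt54] at h1
    have h2 : tt54 (X * toC A - toC A * X) = tt54 (0 : Matrix n n ℂ) := h1
    exact sub_eq_zero.1 (tt54_inj h2)
  | zero => rw [zero_mul, mul_zero]
  | add x z _ _ h1 h2 => rw [add_mul, mul_add, h1, h2]
  | smul c x _ h1 => rw [smul_mul_assoc, mul_smul_comm, h1]

theorem MT_EC (H : IsHS m Q S P) {g : GL n ℂ} (hg : g ∈ MT S P) {x : Matrix n n ℂ} (hx : x ∈ EC P) :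
    (g : Matrix n n ℂ) * x = x * (g : Matrix n n ℂ) := by
  unfold EC at hx
  induction hx using Submodule.span_induction with
  | mem x hx =>
    obtain ⟨A, hA, rfl⟩ := hx
    have h1 := hg 1 1 (tt54 A) (hodge_tt54 H hA)
    have e1 : slot 1 1 (g : Matrix n n ℂ) ((g⁻¹ : GL n ℂ) : Matrix n n ℂ) =
        Sum.elim (fun _ : Fin 1 => (g : Matrix n n ℂ)) (fun _ : Fin 1 => ((g⁻¹ : GL n ℂ) : Matrix n n ℂ)ᵀ) := rfl
    rw [tC_tt54, e1, actF_tt54, Matrix.transpose_transpose] at h1
    have h2 := tt54_inj h1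
    have h3 : ((g⁻¹ : GL n ℂ) : Matrix n n ℂ) * (g : Matrix n n ℂ) = 1 := by
      rw [← Units.val_mul, inv_mul_cancel, Units.val_one]
    calc (g : Matrix n n ℂ) * toC A
        = (g : Matrix n n ℂ) * toC A * ((g⁻¹ : GL n ℂ) : Matrix n n ℂ) * (g : Matrix n n ℂ) := by
          rw [mul_assoc _ ((g⁻¹ : GL n ℂ) : Matrix n n ℂ), h3, mul_one]
      _ = toC A * (g : Matrix n n ℂ) := by rw [h2]
  | zero => rw [zero_mul, mul_zero]
  | add x z _ _ h1 h2 => rw [add_mul, mul_add, h1, h2]
  | smul c x _ h1 => rw [smul_mul_assoc, mul_smul_comm, h1]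

/-! ### commuting with `∑ (p - m) P p` -/

private theorem comm_P54 (H : IsHS m Q S P) {A : Matrix n n ℂ}
    (h3 : A * (∑ p ∈ S, ((p - m : ℤ) : ℂ) • P p) = (∑ p ∈ S, ((p - m : ℤ) : ℂ) • P p) * A) (p : ℤ) :
    A * P p = P p * A := by
  have hoff : ∀ p q, p ≠ q → P p * A * P q = 0 := by
    intro p q hpq
    have e1 : P p * (A * ∑ p ∈ S, ((p - m : ℤ) : ℂ) • P p) * P q = ((q - m : ℤ) : ℂ) • (P p * A * P q) := by
      rw [← mul_assoc, mul_assoc (P p * A), H.sum_mul_P (fun p => ((p - m : ℤ) : ℂ)), mul_smul_comm]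
    have e2 : P p * ((∑ p ∈ S, ((p - m : ℤ) : ℂ) • P p) * A) * P q = ((p - m : ℤ) : ℂ) • (P p * A * P q) := by
      rw [← mul_assoc, H.P_mul_sum (fun p => ((p - m : ℤ) : ℂ)), smul_mul_assoc, smul_mul_assoc]
    rw [h3, e2] at e1
    have e3 : (((p - m : ℤ) : ℂ) - ((q - m : ℤ) : ℂ)) • (P p * A * P q) = 0 := by
      rw [sub_smul, e1, sub_self]
    rcases smul_eq_zero.1 e3 with e4 | e4
    · exfalso
      apply hpq
      have e5 : (((p - q : ℤ)) : ℂ) = 0 := by
        rw [← e4]
        push_cast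
        ring
      have e6 : p - q = 0 := by exact_mod_cast e5
      omega
    · exact e4
  have l1 : A * P p = P p * A * P p := by
    have e1 : A * P p = (∑ q ∈ S, P q) * (A * P p) := by rw [H.sum, one_mul]
    rw [e1, Finset.sum_mul]
    by_cases hp : p ∈ S
    · rw [Finset.sum_eq_single p]
      · rw [mul_assoc]
      · intro q _ hq
        rw [← mul_assoc, hoff q p hq]
      · intro h
        exact absurd hp h
    · rw [H.supp p hp]
      simp
  have l2 : P p * A = P p * A * P p := by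
    have e1 : P p * A = P p * A * ∑ q ∈ S, P q := by rw [H.sum, mul_one]
    conv_lhs => rw [e1]
    rw [Finset.mul_sum]
    by_cases hp : p ∈ S
    · rw [Finset.sum_eq_single p]
      · intro q _ hq
        rw [hoff p q (Ne.symm hq)]
      · intro h
        exact absurd hp h
    · rw [H.supp p hp]
      simp
  exact l1.trans l2.symm

private theorem EC_h54 {x : Matrix n n ℂ} (hx : x ∈ EC P) :
    x * (∑ p ∈ S, ((p - m : ℤ) : ℂ) • P p) = (∑ p ∈ S, ((p - m : ℤ) : ℂ) • P p) * x := by
  rw [Finset.sum_mul, Finset.mul_sum]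
  refine Finset.sum_congr rfl fun p _ => ?_
  rw [smul_mul_assoc, mul_smul_comm, EC_P hx]

private theorem EC_hσ54 {x : Matrix n n ℂ} (hx : x ∈ EC P) (σ : ℂ ≃+* ℂ) :
    x * (∑ p ∈ S, ((p - m : ℤ) : ℂ) • P p).map σ = (∑ p ∈ S, ((p - m : ℤ) : ℂ) • P p).map σ * x := by
  have h1 := EC_h54 (m := m) (S := S) (EC_aut σ.symm hx)
  have h2 := congrArg (fun Y : Matrix n n ℂ => Y.map (σ : ℂ →+* ℂ)) h1
  rw [Matrix.map_mul, Matrix.map_mul] at h2
  have h3 : (x.map σ.symm).map (σ : ℂ →+* ℂ) = x := by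
    ext i j
    simp
  rw [h3] at h2
  exact h2

/-! ### extension of scalars of a rational linear map -/

private noncomputable def xC54 (f : Matrix n n ℚ →ₗ[ℚ] Matrix n n ℚ) : Matrix n n ℂ →ₗ[ℂ] Matrix n n ℂ where
  toFun X := ∑ i, ∑ j, X i j • toC (f (Matrix.single i j 1))
  map_add' X Y := by simp only [Matrix.add_apply, add_smul, Finset.sum_add_distrib]
  map_smul' c X := by
    simp only [Matrix.smul_apply, smul_eq_mul, mul_smul, Finset.smul_sum, RingHom.id_apply]

private theorem xC54_apply (f : Matrix n n ℚ →ₗ[ℚ] Matrix n n ℚ) (X : Matrix n n ℂ) :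
    xC54 f X = ∑ i, ∑ j, X i j • toC (f (Matrix.single i j 1)) := rfl

private theorem xC54_toC (f : Matrix n n ℚ →ₗ[ℚ] Matrix n n ℚ) (A : Matrix n n ℚ) :
    xC54 f (toC A) = toC (f A) := by
  have h1 : f A = ∑ i, ∑ j, A i j • f (Matrix.single i j 1) := by
    conv_lhs => rw [Matrix.matrix_eq_sum_single A]
    rw [map_sum]
    refine Finset.sum_congr rfl fun i _ => ?_
    rw [map_sum]
    refine Finset.sum_congr rfl fun j _ => ?_
    rw [← map_smul, Matrix.smul_single, smul_eq_mul, mul_one]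
  rw [h1, xC54_apply]
  ext a b
  simp only [toC, Matrix.map_apply, Matrix.sum_apply, Matrix.smul_apply, smul_eq_mul, map_sum, map_mul]

private theorem xC54_map (f : Matrix n n ℚ →ₗ[ℚ] Matrix n n ℚ) (σ : ℂ ≃+* ℂ) (X : Matrix n n ℂ) :
    xC54 f (X.map σ) = (xC54 f X).map σ := by
  rw [xC54_apply, xC54_apply]
  ext a b
  simp only [toC, Matrix.map_apply, Matrix.sum_apply, Matrix.smul_apply, smul_eq_mul, map_sum, map_mul,
    eq_ratCast, map_ratCast]

/-- the rational endomorphisms -/
private def EQ54 (P : ℤ → Matrix n n ℂ) : Submodule ℚ (Matrix n n ℚ) where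
  carrier := {A | ∀ p, toC A * P p = P p * toC A}
  add_mem' := by
    intro A B hA hB p
    rw [toC_add, add_mul, mul_add, hA p, hB p]
  zero_mem' := by
    intro p
    rw [toC_zero, zero_mul, mul_zero]
  smul_mem' := by
    intro c A hA p
    have e : toC (c • A) = (c : ℂ) • toC A := by
      ext i j
      simp [toC]
    rw [e, smul_mul_assoc, mul_smul_comm, hA p]

private theorem exists_proj54 (P : ℤ → Matrix n n ℂ) : ∃ f : Matrix n n ℚ →ₗ[ℚ] Matrix n n ℚ,
    (∀ A, ∀ p, toC (f A) * P p = P p * toC (f A)) ∧ ∀ A, (∀ p, toC A * P p = P p * toC A) → f A = A := by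
  obtain ⟨g, hg⟩ := (EQ54 P).subtype.exists_leftInverse_of_injective (by
    rw [LinearMap.ker_eq_bot]
    exact Subtype.val_injective)
  refine ⟨(EQ54 P).subtype.comp g, fun A => (g A).2, fun A hA => ?_⟩
  have h1 := LinearMap.congr_fun hg ⟨A, hA⟩
  have h2 := congrArg Subtype.val h1
  exact h2

/-- Galois descent (as MH.descent, without the hypothesis on End) -/
theorem descentE (H : IsHS m Q S P) {T : Matrix n n ℂ}
    (hT : ∀ σ : ℂ ≃+* ℂ, T * (∑ p ∈ S, ((p - m : ℤ) : ℂ) • P p).map σ = (∑ p ∈ S, ((p - m : ℤ) : ℂ) • P p).map σ * T) :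
    T ∈ EC P := by
  classical
  obtain ⟨f, hf1, hf2⟩ := exists_proj54 P
  have hmem : ∀ X, xC54 f X ∈ EC P := by
    intro X
    rw [xC54_apply]
    refine (EC P).sum_mem fun i _ => (EC P).sum_mem fun j _ => (EC P).smul_mem _ (toC_mem54 (hf1 _))
  have hfix : ∀ x ∈ EC P, xC54 f x = x := by
    intro x hx
    unfold EC at hx
    induction hx using Submodule.span_induction with
    | mem x hx =>
      obtain ⟨A, hA, rfl⟩ := hx
      rw [xC54_toC, hf2 A hA]
    | zero => rw [map_zero]
    | add x z _ _ h1 h2 => rw [map_add, h1, h2]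
    | smul c x _ h1 => rw [map_smul, h1]
  set h₀ := ∑ p ∈ S, ((p - m : ℤ) : ℂ) • P p with hh₀
  -- normalised matrices are zero
  have key : ∀ k : ℕ, ∀ T : Matrix n n ℂ, (∀ σ : ℂ ≃+* ℂ, T * h₀.map σ = h₀.map σ * T) → xC54 f T = 0 →
      (Finset.univ.filter (fun z : n × n => T z.1 z.2 ≠ 0)).card = k → T = 0 := by
    intro k
    induction k using Nat.strong_induction_on with
    | _ k ih =>
      intro T hT h0 hk
      by_contra hne
      have h1 : ∃ i j, T i j ≠ 0 := by
        by_contra h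
        push Not at h
        exact hne (by ext i j; exact h i j)
      obtain ⟨i, j, hij⟩ := h1
      set T₁ := (T i j)⁻¹ • T with hT₁
      have hT₁c : ∀ σ : ℂ ≃+* ℂ, T₁ * h₀.map σ = h₀.map σ * T₁ := by
        intro σ
        rw [hT₁, smul_mul_assoc, mul_smul_comm, hT]
      have hT₁0 : xC54 f T₁ = 0 := by
        rw [hT₁, map_smul, h0, smul_zero]
      have hfix' : ∀ σ : ℂ ≃+* ℂ, T₁ - T₁.map σ = 0 := by
        intro σ
        refine ih (Finset.univ.filter (fun z : n × n => (T₁ - T₁.map σ) z.1 z.2 ≠ 0)).card ?_ _ ?_ ?_ rfl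
        · rw [← hk]
          apply Finset.card_lt_card
          rw [Finset.ssubset_iff_of_subset]
          · refine ⟨(i, j), ?_, ?_⟩
            · simpa using hij
            · simp [hT₁, hij]
          · intro z hz
            rw [Finset.mem_filter] at hz ⊢
            refine ⟨Finset.mem_univ _, fun h => hz.2 ?_⟩
            simp [hT₁, h]
        · intro ρ
          have h2 : (T₁.map σ) * h₀.map ρ = h₀.map ρ * T₁.map σ := by
            have h3 := hT₁c (ρ.trans σ.symm)
            have h4 := congrArg (fun Y : Matrix n n ℂ => Y.map (σ : ℂ →+* ℂ)) h3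
            rw [Matrix.map_mul, Matrix.map_mul, Matrix.map_map] at h4
            have h5 : ((σ : ℂ →+* ℂ) : ℂ → ℂ) ∘ (ρ.trans σ.symm) = ρ := by
              funext z
              simp
            rw [h5] at h4
            exact h4
          rw [sub_mul, mul_sub, hT₁c, h2]
        · rw [map_sub, xC54_map, hT₁0, Matrix.map_zero _ (map_zero _), sub_zero]
      -- rational
      have hrat : ∀ a b, ∃ q : ℚ, (q : ℂ) = T₁ a b := by
        intro a b
        by_contra h
        push Not at h
        obtain ⟨σ, hσ⟩ := exists_aut_ne h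
        apply hσ
        have h2 := congrFun (congrFun (hfix' σ) a) b
        rw [Matrix.sub_apply, Matrix.map_apply, Matrix.zero_apply, sub_eq_zero] at h2
        exact h2.symm
      choose A hA using hrat
      have hTA : T₁ = toC (Matrix.of A) := by
        ext a b
        simp [toC, hA]
      have h2 := hT₁c (RingEquiv.refl ℂ)
      have h3 : h₀.map (RingEquiv.refl ℂ) = h₀ := by
        ext a b
        rfl
      rw [h3, hTA] at h2
      have h4 := hf2 _ (comm_P54 H h2)
      have h5 : T₁ = 0 := by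
        rw [← hT₁0, hTA, xC54_toC, h4]
      have h6 : T₁ i j = 1 := by simp [hT₁, hij]
      rw [h5] at h6
      simp at h6
  have h1 : T - xC54 f T = 0 := by
    refine key _ _ ?_ ?_ rfl
    · intro σ
      rw [sub_mul, mul_sub, hT, EC_hσ54 (hmem T)]
    · rw [map_sub, hfix _ (hmem T), sub_self]
  rw [sub_eq_zero] at h1
  rw [h1]
  exact hmem T

/-- the commutant of `LH` -/
theorem EC_of_LH (H : IsHS m Q S P) {T : Matrix n n ℂ} (hT : ∀ X ∈ LH Q S P, T * X = X * T) : T ∈ EC P :=
  descentE H fun σ => hT _ (LH_aut σ H.h0_mem)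

end MH
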